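import Mathlib
import Pool.Agent.W307.RS.MainK
import Pool.Agent.W307.RS.MainQ

/-! The moments of the ranks over a multiquadratic field of the twists by rational integers. -/

set_option autoImplicit false

namespace Pool.Agent.W307.RG

open Finset Pool.Agent.W262.RK Pool.Agent.W307.RT Pool.Agent.W307.RS

/-- the groups of points are finitely generated -/
lemma fin_tw {A B e1 e2 e3 : ℤ} (hD : 4 * A ^ 3 + 27 * B ^ 2 ≠ 0)
    (h : ∀ x : ℤ, x ^ 3 + A * x + B = (x - e1) * (x - e2) * (x - e3)) {d : ℤ} (hd : d ≠ 0) :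
    Module.Finite ℤ (Sh (d ^ 2 * A) (d ^ 3 * B)).toAffine.Point := by
  have h0 := h 0
  have h1 := h 1
  have h2 := h (-1)
  have hs : e1 + e2 + e3 = 0 := by linarith
  have hA : A = e1 * e2 + e1 * e3 + e2 * e3 := by linarith
  have hB : B = -(e1 * e2 * e3) := by linarith
  have he3 : e3 = -e1 - e2 := by linarith
  have hdisc : 4 * A ^ 3 + 27 * B ^ 2 = -((e1 - e2) * (e1 - e3) * (e2 - e3)) ^ 2 := by
    rw [hA, hB, he3]; ring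
  rw [hdisc] at hD
  have h12 : e2 - e1 ≠ 0 := by
    intro h'; apply hD; rw [show e1 - e2 = -(e2 - e1) by ring, h']; ring
  have h13 : e3 - e1 ≠ 0 := by
    intro h'; apply hD; rw [show e1 - e3 = -(e3 - e1) by ring, h']; ring
  have h23 : e2 - e3 ≠ 0 := by
    intro h'; apply hD; rw [h']; ring
  obtain ⟨φ⟩ := Pool.Agent.W261.RT.iso 0 ((d ^ 2 * A : ℤ) : ℚ) ((d ^ 3 * B : ℤ) : ℚ)
    ((d * e1 : ℤ) : ℚ) 1 one_ne_zero
  have hW : (⟨0, ((0 : ℚ) + 3 * ((d * e1 : ℤ) : ℚ)) / (1 : ℚ) ^ 2, 0,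
      (((d ^ 2 * A : ℤ) : ℚ) + 2 * ((d * e1 : ℤ) : ℚ) * 0 + 3 * ((d * e1 : ℤ) : ℚ) ^ 2) /
        (1 : ℚ) ^ 4,
      (((d ^ 3 * B : ℤ) : ℚ) + ((d * e1 : ℤ) : ℚ) * ((d ^ 2 * A : ℤ) : ℚ) +
        ((d * e1 : ℤ) : ℚ) ^ 2 * 0 + ((d * e1 : ℤ) : ℚ) ^ 3) / (1 : ℚ) ^ 6⟩ :
      WeierstrassCurve ℚ) = EAB ((e2 - e1) * d) ((e3 - e1) * d) := by
    unfold EAB
    subst hA hB he3
    simp only [WeierstrassCurve.mk.injEq, true_and]
    refine ⟨?_, ?_, ?_⟩ <;> push_cast <;> ring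
  rw [hW] at φ
  have hfg := (Pool.Agent.W214.RK.half ((e2 - e1) * d) ((e3 - e1) * d)
    (mul_ne_zero h12 hd) (mul_ne_zero h13 hd)
    (fun h' => h23 (by
      have := mul_right_cancel₀ hd h'
      linarith))).1
  have hfin : Module.Finite ℤ (EAB ((e2 - e1) * d) ((e3 - e1) * d)).toAffine.Point :=
    Module.Finite.iff_addGroup_fg.2 hfg
  exact Module.Finite.equiv φ.symm.toIntLinearEquiv

lemma roots_tw {A B e1 e2 e3 : ℤ}
    (h : ∀ x : ℤ, x ^ 3 + A * x + B = (x - e1) * (x - e2) * (x - e3)) (d : ℤ) :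
    ∀ x : ℤ, x ^ 3 + d ^ 2 * A * x + d ^ 3 * B = (x - d * e1) * (x - d * e2) * (x - d * e3) := by
  intro x
  have h0 := h 0
  have h1 := h 1
  have h2 := h (-1)
  have hs : e1 + e2 + e3 = 0 := by linarith
  have hA : A = e1 * e2 + e1 * e3 + e2 * e3 := by linarith
  have hB : B = -(e1 * e2 * e3) := by linarith
  have he3 : e3 = -e1 - e2 := by linarith
  subst hA hB he3
  ring

lemma pow_le_sum_pow {ι : Type} [Fintype ι] [Nonempty ι] (f : ι → ℕ) (n : ℕ)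
    (hn : Fintype.card ι = n) (R k : ℕ) (hR : R ≤ ∑ i, f i) :
    ((2 : ℝ) ^ R) ^ k ≤ ∑ i, ((2 : ℝ) ^ f i) ^ (n * k) := by
  obtain ⟨i0, hi0⟩ := Finite.exists_max f
  have h2 : R ≤ f i0 * n := by
    calc R ≤ ∑ i, f i := hR
      _ ≤ ∑ _i : ι, f i0 := sum_le_sum fun i _ => hi0 i
      _ = f i0 * n := by rw [sum_const, card_univ, hn, smul_eq_mul, mul_comm]
  calc ((2 : ℝ) ^ R) ^ k ≤ ((2 : ℝ) ^ (f i0 * n)) ^ k :=
        pow_le_pow_left₀ (by positivity) (pow_le_pow_right₀ (by norm_num) h2) k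
    _ = ((2 : ℝ) ^ f i0) ^ (n * k) := by rw [pow_mul, pow_mul]
    _ ≤ _ := single_le_sum (f := fun i => ((2 : ℝ) ^ f i) ^ (n * k))
        (fun _ _ => by positivity) (mem_univ i0)

open Classical in
/-- the moments of the ranks over a multiquadratic field -/
theorem mqtw (F : Type) [Field F] [CharZero F] [Algebra ℚ F] (r : ℕ)
    (x : Fin r → F) (d : Fin r → ℤ) (hx : ∀ i, x i ^ 2 = (d i : F)) (hd : ∀ i, d i ≠ 0)
    (hgen : IntermediateField.adjoin ℚ (Set.range x) = ⊤)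
    {A B e1 e2 e3 : ℤ} (hD : 4 * A ^ 3 + 27 * B ^ 2 ≠ 0)
    (h : ∀ x : ℤ, x ^ 3 + A * x + B = (x - e1) * (x - e2) * (x - e3))
    (m : ℕ) (γ δ : Fin m → ℤ) (hγ : ∀ i, γ i ≠ 0)
    (hγδ : ∀ i j, i ≠ j → γ i * δ j ≠ γ j * δ i) (k L : ℕ) :
    ∃ C : ℝ, ∀ (N : ℤ) (M : ℕ), 1 ≤ M → |N| ≤ (M : ℤ) ^ L →
      ∑ t ∈ (Ioc N (N + M)).filter (fun t => ∏ i, (γ i * t + δ i) ≠ 0),
        ((2 : ℝ) ^ Module.finrank ℤ (ShK (((∏ i, (γ i * t + δ i)) ^ 2 * A : ℤ) : F)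
          (((∏ i, (γ i * t + δ i)) ^ 3 * B : ℤ) : F)).toAffine.Point) ^ k ≤ C * M := by
  have hdT : ∀ T : Finset (Fin r), (∏ i ∈ T, d i) ≠ 0 := fun T =>
    prod_ne_zero_iff.2 fun i _ => hd i
  have hDd : ∀ D : ℤ, D ≠ 0 → 4 * (D ^ 2 * A) ^ 3 + 27 * (D ^ 3 * B) ^ 2 ≠ 0 := by
    intro D hD0 h'
    apply hD
    have : D ^ 6 * (4 * A ^ 3 + 27 * B ^ 2) = 0 := by linear_combination h'
    exact (mul_eq_zero.1 this).resolve_left (pow_ne_zero 6 hD0)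
  choose Ct hCt using fun T : Finset (Fin r) => final2 (hDd _ (hdT T)) (roots_tw h (∏ i ∈ T, d i))
    m γ δ hγ hγδ (2 ^ r * k) L
  refine ⟨∑ T, Ct T, fun N M hM hN => ?_⟩
  rw [sum_mul]
  refine le_trans ?_ (sum_le_sum fun T _ => hCt T N M hM hN)
  rw [sum_comm]
  refine sum_le_sum fun t ht => ?_
  set D := ∏ i, (γ i * t + δ i) with hDt
  have hD0 : D ≠ 0 := (mem_filter.1 ht).2
  have h1 := mq2 F r x d hx hd hgen (D ^ 2 * A) (D ^ 3 * B) (hDd D hD0)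
  have he : ∀ T : Finset (Fin r), Sh ((∏ i ∈ T, d i) ^ 2 * (D ^ 2 * A))
      ((∏ i ∈ T, d i) ^ 3 * (D ^ 3 * B)) = Sh (D ^ 2 * ((∏ i ∈ T, d i) ^ 2 * A))
        (D ^ 3 * ((∏ i ∈ T, d i) ^ 3 * B)) := by
    intro T
    congr 1 <;> ring
  have hfin : ∀ T : Finset (Fin r), Module.Finite ℤ
      (Sh ((∏ i ∈ T, d i) ^ 2 * (D ^ 2 * A)) ((∏ i ∈ T, d i) ^ 3 * (D ^ 3 * B))).toAffine.Point := by
    intro T
    have h5 : Sh ((∏ i ∈ T, d i) ^ 2 * (D ^ 2 * A)) ((∏ i ∈ T, d i) ^ 3 * (D ^ 3 * B)) =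
        Sh (((∏ i ∈ T, d i) * D) ^ 2 * A) (((∏ i ∈ T, d i) * D) ^ 3 * B) := by
      congr 1 <;> ring
    rw [h5]
    exact fin_tw hD h (mul_ne_zero (hdT T) hD0)
  have h2 : ∀ T : Finset (Fin r), Module.rank ℤ
      (Sh ((∏ i ∈ T, d i) ^ 2 * (D ^ 2 * A)) ((∏ i ∈ T, d i) ^ 3 * (D ^ 3 * B))).toAffine.Point =
      ((Module.finrank ℤ (Sh ((∏ i ∈ T, d i) ^ 2 * (D ^ 2 * A))
        ((∏ i ∈ T, d i) ^ 3 * (D ^ 3 * B))).toAffine.Point : ℕ) : Cardinal) := by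
    intro T
    have := hfin T
    exact (Module.finrank_eq_rank ℤ _).symm
  have h3 : Module.finrank ℤ (ShK (((D ^ 2 * A : ℤ) : F)) (((D ^ 3 * B : ℤ) : F))).toAffine.Point ≤
      ∑ T : Finset (Fin r), Module.finrank ℤ (Sh ((∏ i ∈ T, d i) ^ 2 * (D ^ 2 * A))
        ((∏ i ∈ T, d i) ^ 3 * (D ^ 3 * B))).toAffine.Point := by
    rw [sum_congr rfl fun T _ => h2 T, ← Nat.cast_sum] at h1
    exact Module.finrank_le_of_rank_le h1
  have h4 := pow_le_sum_pow (ι := Finset (Fin r)) (fun T => Module.finrank ℤ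
    (Sh ((∏ i ∈ T, d i) ^ 2 * (D ^ 2 * A)) ((∏ i ∈ T, d i) ^ 3 * (D ^ 3 * B))).toAffine.Point)
    (2 ^ r) (by rw [Fintype.card_finset, Fintype.card_fin]) _ k h3
  refine h4.trans (le_of_eq (sum_congr rfl fun T _ => ?_))
  rw [he T]

end Pool.Agent.W307.RG
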